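import Pool.Agent.HKD.Final2

set_option autoImplicit false

namespace Pool.Agent.Results.MP_6abdaf_an.NoIIOneFactorSummand

open Pool.Agent.HK

/-- Vanishing of the bounded Hochschild cohomology in all degrees `m + 1 ≥ 1` of a von Neumann
algebra `M` without direct summand that is a factor of type II-one, with coefficients in any
norm closed `M`-bimodule `X` of compact operators (for instance `X` all compact operators), with
a constant `K` that depends only on the degree. -/
theorem result (m : ℕ) : ∃ K : ℝ,
    ∀ (H : Type) [NormedAddCommGroup H] [InnerProductSpace ℂ H] [CompleteSpace H]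
      (M : VonNeumannAlgebra H) (X : Set (H →L[ℂ] H)), IsPieceSum M → AllCompact X →
      IsClosedBimodule (M : Set (H →L[ℂ] H)) X →
      CohomologyVanishes (M : Set (H →L[ℂ] H)) X m K := by
  refine ⟨Pool.Agent.HK.KT m * 2, ?_⟩
  intro H _ _ _ M X hM hXc hX φ C hC h1 h4
  let Y : Submodule ℂ (H →L[ℂ] H) :=
    { carrier := X
      zero_mem' := hX.zero_mem
      add_mem' := fun {x y} hx hy => by
        have := hX.linear 1 x hx y hy
        rwa [one_smul] at this
      smul_mem' := fun c x hx => by
        have := hX.linear c x hx 0 hX.zero_mem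
        rwa [add_zero] at this }
  obtain ⟨ψ, k1, k2, k3, k4⟩ := Pool.Agent.HK.hkd_final m M hM Y hX.closed hXc
    (fun a ha x hx => ⟨hX.left_mul a ha x hx, hX.right_mul a ha x hx⟩) φ C hC h1.linear
    h1.bound h1.values (fun a ha => by
      have h5 := h4 a ha
      unfold coboundary at h5
      convert h5 using 5)
  refine ⟨ψ, ⟨k1, fun a ha => (k2 a ha).trans (le_of_eq ?_), k3⟩, fun a ha => ?_⟩
  · ring
  · have h5 := k4 a ha
    unfold coboundary
    convert h5 using 5

end Pool.Agent.Results.MP_6abdaf_an.NoIIOneFactorSummand
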