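import Pool.Agent.HFT.N6
import Pool.Agent.HFT.DefsR

set_option autoImplicit false

namespace Pool.Agent.Results.MP_6abdaf_an.NormalReduction

open Pool.Agent.HK Pool.Agent.HFT

/-- Reduction to normal cocycles. Let `z` be a central projection of the von Neumann algebra `M`
such that `(1 - z)M` is zero or properly infinite and `zM` is zero or has a faithful normal
tracial state. Every bounded `(m + 1)`-cocycle on `M` whose values are compact operators is the
sum of the coboundary of a cochain with compact values and of a separately normal cochain with
compact values, the norms being controlled by a constant that depends only on the degree. -/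
theorem result (m : ℕ) : ∃ K : ℝ,
    ∀ (H : Type) [NormedAddCommGroup H] [InnerProductSpace ℂ H] [CompleteSpace H]
      (M : VonNeumannAlgebra H), HasTracePart (M : Set (H →L[ℂ] H)) →
      ReducesToNormal (M : Set (H →L[ℂ] H)) m K := by
  obtain ⟨K, hK⟩ := finalN m
  refine ⟨K, ?_⟩
  intro H _ _ _ M hM φ C hC h1 h2
  obtain ⟨z, hz, hz1, hz2⟩ := hM
  exact hK H M z hz hz1 hz2 φ C hC h1 h2

end Pool.Agent.Results.MP_6abdaf_an.NormalReduction
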