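import Pool.Agent.HFT.K4

set_option autoImplicit false

namespace Pool.Agent.Results.MP_6abdaf_an.PropertyGammaDegreeTwo

open Pool.Agent.HK Pool.Agent.HFT

/-- Vanishing of the second bounded Hochschild cohomology group with coefficients in the compact
operators, for every von Neumann algebra that is a countable direct sum of properly infinite
algebras, of homogeneous algebras of finite type I, of algebras with diffuse centre and of factors
of type II-one with separable predual and property Gamma, with a universal constant. -/
theorem result : ∃ K : ℝ,
    ∀ (H : Type) [NormedAddCommGroup H] [InnerProductSpace ℂ H] [CompleteSpace H]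
      (M : VonNeumannAlgebra H), IsPieceSumG M →
      CohomologyVanishes (M : Set (H →L[ℂ] H)) (Cpt H) 1 K :=
  finalG

end Pool.Agent.Results.MP_6abdaf_an.PropertyGammaDegreeTwo
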